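import Pool.Agent.Lib.H71S.Main

set_option autoImplicit false

namespace Pool.Agent.Results.MP_ddd335_co.PermutationBlocks

open H71S

/-- Complements of planar graphs which consist of an independent set `W`, carrying a plane
triangulation, and of permutation graphs attached to the edges and faces of the triangulation,
are intersection graphs of segments in the plane. -/
theorem result (X : Type) [Finite X] (G : SimpleGraph X) (W : Set X)
    (hW : ∀ x ∈ W, ∀ y ∈ W, ¬ G.Adj x y)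
    -- the triangulation on `W`
    (u v : X) (I : List X) (F : List (X × X × X)) (hT : Disc [u] v I F)
    (hnd : (u :: v :: I).Nodup) (hTW : ∀ x, x ∈ W ↔ x ∈ u :: v :: I)
    -- the blocks, each inducing a permutation graph
    (κ : X → ℕ) (p q : X → ℝ)
    (hκ : ∀ x ∉ W, ∀ y ∉ W, G.Adj x y → κ x = κ y)
    (hpq : ∀ x ∉ W, ∀ y ∉ W, κ x = κ y → x ≠ y → p x ≠ p y ∧ q x ≠ q y ∧
      (G.Adj x y ↔ (p x < p y ∧ q y < q x) ∨ (p y < p x ∧ q x < q y)))
    -- the attachments of the blocks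
    (hatt : ∀ k : ℕ, (∃ a b, Side u v F a b ∧
        ∀ x ∉ W, κ x = k → ∀ y ∈ W, G.Adj x y → y = a ∨ y = b) ∨
      (∃ f ∈ F, ∀ x ∉ W, κ x = k → (∀ y ∈ W, ¬ G.Adj x y) ∨
        (∀ y ∈ W, G.Adj x y ↔ y = f.1 ∨ y = f.2.1 ∨ y = f.2.2))) :
    ∃ s : X → (ℝ × ℝ) × (ℝ × ℝ), (∀ v, (s v).1 ≠ (s v).2) ∧
      ∀ u v, u ≠ v → (Gᶜ.Adj u v ↔
        (segment ℝ (s u).1 (s u).2 ∩ segment ℝ (s v).1 (s v).2).Nonempty) :=
  main_disc G W hW hT hnd hTW κ p q hκ hpq hatt

end Pool.Agent.Results.MP_ddd335_co.PermutationBlocks
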